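import Pool.Agent.W477.ER.All

/-!
# MP_c5c754_ag : the maximal number of common rational zeros of r independent forms

For every finite field with q elements, all m ≥ 1, 1 ≤ d < q and 1 ≤ r ≤ C(m+d, d), the maximal
number of rational points of P^m at which r linearly independent forms of degree d vanish is
L_r(d, m). This is the full positive answer to the question.

The heart of the proof is a lower bound for the Hilbert function (in degree d < q) of an arbitrary
set of rational points of projective space, `Pool.Agent.W477.ER.th`.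
-/

set_option autoImplicit false

open Finset
open scoped LinearAlgebra.Projectivization

namespace Pool.Agent.Results.MP_c5c754_ag.ErEqLr

/-- `s` is the Macaulay representation of `N` in degree `d`: `s d > ... > s 1 ≥ 0` and
`N = C(s d, d) + ... + C(s 1, 1)`. (Only the values `s 1, ..., s d` matter.) -/
def IsMacaulay (d N : ℕ) (s : ℕ → ℕ) : Prop :=
  (∀ a b, 1 ≤ a → a < b → b ≤ d → s a < s b) ∧ ∑ a ∈ Icc 1 d, (s a).choose a = N

/-- The number `L = p_{s d - d} + ∑_{1 ≤ a < d} ⌊q^{s a - a}⌋`, where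
`p_k = 1 + q + ... + q^k` (so `p_{-1} = 0`) and `⌊q^{-1}⌋ = 0`. -/
def L (q d : ℕ) (s : ℕ → ℕ) : ℕ :=
  ∑ i ∈ range (s d + 1 - d), q ^ i + ∑ a ∈ Ico 1 d, (if s a < a then 0 else q ^ (s a - a))

/-- The set of the numbers of common rational zeros in `P^m(K)` of `r` linearly independent
homogeneous polynomials of degree `d` in `m + 1` variables. -/
def zeroCounts (K : Type) [Field K] (m d r : ℕ) : Set ℕ :=
  {N | ∃ F : Fin r → MvPolynomial (Fin (m + 1)) K,
    (∀ i, (F i).IsHomogeneous d) ∧ LinearIndependent K F ∧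
    N = {x : ℙ K (Fin (m + 1) → K) | ∀ i, MvPolynomial.eval x.rep (F i) = 0}.ncard}

/-- `e_r(d, m) = L_r(d, m)` for all finite fields, `m ≥ 1`, `1 ≤ d < q`, `1 ≤ r ≤ C(m+d, d)`. -/
theorem result : ∀ (K : Type) [Field K] [Fintype K] (m d r : ℕ), 1 ≤ m → 1 ≤ d →
    d < Fintype.card K → 1 ≤ r → r ≤ (m + d).choose d →
    (∃ s : ℕ → ℕ, IsMacaulay d ((m + d).choose d - r) s) ∧
    ∀ s : ℕ → ℕ, IsMacaulay d ((m + d).choose d - r) s →
      IsGreatest (zeroCounts K m d r) (L (Fintype.card K) d s) := by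
  intro K _ _ m d r hm hd hdq hr hrD
  have hcard : Nat.card K = Fintype.card K := Nat.card_eq_fintype_card
  constructor
  · obtain ⟨s, hs1, hs2⟩ := Pool.Agent.W477.ER.macaulay_exists d ((m + d).choose d - r)
    exact ⟨s, hs1, (hs2 hd).1⟩
  · intro s hs
    have h := Pool.Agent.W477.ER.er_of Pool.Agent.W477.ER.p_be Pool.Agent.W477.ER.th
      Pool.Agent.W477.ER.p_link Pool.Agent.W477.ER.p_lowB Pool.Agent.W477.ER.p_lb1
      K m d r hm hd (by rw [hcard]; exact hdq) hr hrD s hs.1 hs.2
    rw [hcard] at h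
    exact h

end Pool.Agent.Results.MP_c5c754_ag.ErEqLr
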